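import Pool.Agent.QUD.StmtsR

/-!
# Squad QUD, row SNF: normal form of a quadrilateral with two parallel sides
-/

set_option autoImplicit false

namespace Pool.Agent.QUD.H22

open Complex Pool.Agent.H16Iso Pool.Agent.QUD
open Pool.Agent.H1Gen (det CCW poly)

/-- The scalar product and the determinant with `e` are the coordinates in the rotated frame. -/
theorem snf_frame (e w : ℂ) (he : e ≠ 0) :
    e / ((‖e‖ : ℝ) : ℂ) * (⟨sp e w / ‖e‖, det e w / ‖e‖⟩ : ℂ) = w := by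
  have hN : (‖e‖ : ℝ) ≠ 0 := norm_ne_zero_iff.mpr he
  have hN2 : e.re * e.re + e.im * e.im = ‖e‖ * ‖e‖ := by
    have h := Complex.normSq_eq_norm_sq e
    rw [Complex.normSq_apply] at h
    nlinarith [h]
  have hre : (e / ((‖e‖ : ℝ) : ℂ)).re = e.re / ‖e‖ := Complex.div_ofReal_re e ‖e‖
  have him : (e / ((‖e‖ : ℝ) : ℂ)).im = e.im / ‖e‖ := Complex.div_ofReal_im e ‖e‖
  apply Complex.ext
  · rw [Complex.mul_re, hre, him]
    unfold sp det
    have h1 : e.re / ‖e‖ * ((e.re * w.re + e.im * w.im) / ‖e‖)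
        - e.im / ‖e‖ * ((e.re * w.im - e.im * w.re) / ‖e‖)
        = (e.re * e.re + e.im * e.im) * w.re / (‖e‖ * ‖e‖) := by
      field_simp
      ring
    change e.re / ‖e‖ * ((e.re * w.re + e.im * w.im) / ‖e‖)
        - e.im / ‖e‖ * ((e.re * w.im - e.im * w.re) / ‖e‖) = w.re
    rw [h1, hN2]
    field_simp
  · rw [Complex.mul_im, hre, him]
    unfold sp det
    have h1 : e.re / ‖e‖ * ((e.re * w.im - e.im * w.re) / ‖e‖)
        + e.im / ‖e‖ * ((e.re * w.re + e.im * w.im) / ‖e‖)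
        = (e.re * e.re + e.im * e.im) * w.im / (‖e‖ * ‖e‖) := by
      field_simp
      ring
    change e.re / ‖e‖ * ((e.re * w.im - e.im * w.re) / ‖e‖)
        + e.im / ‖e‖ * ((e.re * w.re + e.im * w.im) / ‖e‖) = w.im
    rw [h1, hN2]
    field_simp

/-- **SNF.** Normal form if the sides from `v 1` to `v 2` and from `v 3` to `v 0` are parallel. -/
theorem snf : SnfStmt := by
  intro v hv hpar
  have h012 := hv 0 1 2 (by decide) (by decide)
  have h013 := hv 0 1 3 (by decide) (by decide)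
  set e : ℂ := v 2 - v 1 with he
  have hcyc : det e (v 0 - v 1) = det (v 1 - v 0) (v 2 - v 0) := by
    rw [he]
    simp only [det, Complex.sub_re, Complex.sub_im]
    ring
  have hdp : 0 < det e (v 0 - v 1) := by
    rw [hcyc]
    exact h012
  have he0 : e ≠ 0 := by
    intro h
    rw [h] at hdp
    simp [det] at hdp
  have hNp : 0 < ‖e‖ := norm_pos_iff.mpr he0
  have hN0 : (‖e‖ : ℝ) ≠ 0 := ne_of_gt hNp
  have hN2 : e.re * e.re + e.im * e.im = ‖e‖ * ‖e‖ := by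
    have h := Complex.normSq_eq_norm_sq e
    rw [Complex.normSq_apply] at h
    nlinarith [h]
  have hlag : (e.re * e.re + e.im * e.im) * det (v 1 - v 0) (v 3 - v 0)
      = sp e (v 1 - v 0) * det e (v 3 - v 0) - det e (v 1 - v 0) * sp e (v 3 - v 0) := by
    simp only [det, sp, Complex.sub_re, Complex.sub_im]
    ring
  have hneg : det e (v 1 - v 0) = - det e (v 0 - v 1) := by
    simp only [det, Complex.sub_re, Complex.sub_im]
    ring
  have hsp : 0 < sp e (v 3 - v 0) := by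
    rw [hpar, hneg, hN2] at hlag
    have h1 : 0 < ‖e‖ * ‖e‖ * det (v 1 - v 0) (v 3 - v 0) := mul_pos (mul_pos hNp hNp) h013
    have h2 : 0 < det e (v 0 - v 1) * sp e (v 3 - v 0) := by linarith
    exact (mul_pos_iff_of_pos_left hdp).mp h2
  have hspd : sp e (v 3 - v 1) - sp e (v 0 - v 1) = sp e (v 3 - v 0) := by
    simp only [sp, Complex.sub_re, Complex.sub_im]
    ring
  have hdet3 : det e (v 3 - v 1) = det e (v 0 - v 1) := by
    have h1 : det e (v 3 - v 1) = det e (v 3 - v 0) + det e (v 0 - v 1) := by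
      simp only [det, Complex.sub_re, Complex.sub_im]
      ring
    rw [h1, hpar, zero_add]
  refine ⟨det e (v 0 - v 1) / ‖e‖, ‖e‖, sp e (v 0 - v 1) / ‖e‖,
    sp e (v 3 - v 1) / ‖e‖ - ‖e‖, rfl, rfl, rfl, by ring, div_pos hdp hNp, hNp, ?_, ?_⟩
  · have h1 : ‖e‖ + (sp e (v 3 - v 1) / ‖e‖ - ‖e‖) - sp e (v 0 - v 1) / ‖e‖
        = sp e (v 3 - v 0) / ‖e‖ := by
      rw [← hspd]
      ring
    rw [h1]
    exact div_pos hsp hNp
  · set ω : ℂ := e / ((‖e‖ : ℝ) : ℂ) with hω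
    set h : ℝ := det e (v 0 - v 1) / ‖e‖ with hh
    have hNC : ((‖e‖ : ℝ) : ℂ) ≠ 0 := by
      exact_mod_cast hN0
    have hωn : ‖ω‖ = 1 := by
      rw [hω, norm_div, Complex.norm_real, norm_norm]
      exact div_self hN0
    refine ⟨ω, v 1 + ω * (⟨0, h / 2⟩ : ℂ), hωn, ?_⟩
    intro i
    have hadd : ∀ x : ℝ, ω * (⟨x, h / 2⟩ : ℂ) + (v 1 + ω * (⟨0, h / 2⟩ : ℂ))
        = ω * (⟨x, h⟩ : ℂ) + v 1 := by
      intro x
      have h1 : (⟨x, h⟩ : ℂ) = (⟨x, h / 2⟩ : ℂ) + (⟨0, h / 2⟩ : ℂ) := by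
        apply Complex.ext
        · simp
        · simp
      rw [h1]
      ring
    have hsub : ∀ x : ℝ, ω * (⟨x, -(h / 2)⟩ : ℂ) + (v 1 + ω * (⟨0, h / 2⟩ : ℂ))
        = ω * (x : ℂ) + v 1 := by
      intro x
      have h1 : (x : ℂ) = (⟨x, -(h / 2)⟩ : ℂ) + (⟨0, h / 2⟩ : ℂ) := by
        apply Complex.ext
        · simp
        · simp
      rw [h1]
      ring
    fin_cases i
    · change v 0 = ω * (⟨sp e (v 0 - v 1) / ‖e‖, h / 2⟩ : ℂ) + (v 1 + ω * (⟨0, h / 2⟩ : ℂ))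
      rw [hadd, hh, hω, snf_frame e (v 0 - v 1) he0]
      ring
    · change v 1 = ω * (⟨0, -(h / 2)⟩ : ℂ) + (v 1 + ω * (⟨0, h / 2⟩ : ℂ))
      rw [hsub]
      simp
    · change v 2 = ω * (⟨‖e‖, -(h / 2)⟩ : ℂ) + (v 1 + ω * (⟨0, h / 2⟩ : ℂ))
      rw [hsub, hω, div_mul_cancel₀ e hNC, he]
      ring
    · change v 3 = ω * (⟨‖e‖ + (sp e (v 3 - v 1) / ‖e‖ - ‖e‖), h / 2⟩ : ℂ)
        + (v 1 + ω * (⟨0, h / 2⟩ : ℂ))
      have h1 : ‖e‖ + (sp e (v 3 - v 1) / ‖e‖ - ‖e‖) = sp e (v 3 - v 1) / ‖e‖ := by ring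
      rw [h1, hadd, hh, ← hdet3, hω, snf_frame e (v 3 - v 1) he0]
      ring

end Pool.Agent.QUD.H22
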